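import Pool.Agent.Helper88.D4S.Main

set_option autoImplicit false

/-!
MP_e1889a_ag: Q1 in dimension 4.

`R` is the completed local ring of a symplectic singularity `x ∈ X` of dimension 4 (the symplectic form
`ω` is given by its Poisson bracket), `w` the minimizer of the normalized volume, `A` its log
discrepancy, `X₀ = Spec R₀`, `R₀ = gr_w R` with fraction field `K` and Reeb field `ξ`.  The degeneration
of `ω` is a symplectic form on `X₀` iff `w {f, g} ≥ w f + w g - A / 2` for all `f`, `g`.

`J` is the bracket of four functions on `X₀` which is the leading term of the 4-vector field dual to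
`ω² / 2`; it generates the 4-vector fields of `X₀` in codimension one, that is, it is dual to a volume
form of `X₀`.  `X₀` is K-semistable: `wt ξ` minimizes the normalized volume.  The algebras
`⊕ n, H⁰(X₀, O(∑ n i • D i))` of the klt singularity `X₀` are finitely generated (Birkar, Cascini, Hacon,
McKernan); this is not needed if `X₀` is Q-factorial.
-/

namespace Pool.Agent.Results.MP_e1889a_ag.DimensionFour

open IsLocalRing Pool.Agent.Helper11.SY Pool.Agent.Helper88.D4S

theorem result (R : Type) [CommRing R] [Algebra ℂ R] [IsDomain R] [IsLocalRing R]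
    [IsNoetherianRing R] [IsAdicComplete (maximalIdeal R) R]
    (hres : ∀ f : R, ∃ c : ℂ, f - algebraMap ℂ R c ∈ maximalIdeal R)
    (hdim : ringKrullDim R = 4)
    -- the symplectic form and the minimizer of the normalized volume
    (S : Symp R 2) (w : CVal R) (A : ℝ) (hw : IsMinimizer S w A)
    -- the cone `X₀ = Spec (gr_w R)` and its volume form
    (K : Type) [Field K] [Algebra ℂ K] (R₀ : Subalgebra ℂ K) (ξ : Derivation ℂ K K)
    (sym : ℝ → R → K) (hgr : GrL w R₀ ξ sym)
    (J : Bra K) (hJ : LeadTh S w A sym J) (hcone : Cone4 R₀ ξ J A)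
    -- `X₀` is K-semistable
    (v₀ : RVal K) (V : ℝ) (hmin : IsMinF R₀ ξ J v₀ A V)
    -- `X₀` is Q-factorial, or its divisorial algebras are finitely generated
    (hX₀ : QFac R₀ ∨ CoxFG R₀) :
    OrderGe S w (A / 2) :=
  main R hres hdim S w A hw K R₀ ξ sym hgr J hJ hcone v₀ V hmin hX₀

end Pool.Agent.Results.MP_e1889a_ag.DimensionFour
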