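import Pool.Agent.Helper88.LTA.Main

/-!
# MP_e1889a_ag: Liouville fields and the torus of the stable degeneration

`R` is the completed local ring of a symplectic singularity `x ∈ X` of dimension `2 n` (the symplectic
form `ω` is given by its Poisson bracket), `w` the minimizer of the normalized volume, `A` its log
discrepancy, `X_0 = Spec (gr_w R)`, `ξ` the Reeb field (multiplication by `r` on the part of degree
`r`). The degeneration of `ω` is a symplectic form on `X_0` iff `OrderGe S w (A / n)`, that is
`w {f, g} ≥ w f + w g - A / n`.

`E` is a Liouville field: `L_E ω = ω`, `E m ⊂ m`.  Such a field exists for every symplectic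
singularity (Kaledin: `ω` is exact near `x`, `E` preserves the strata; correct it by a Hamiltonian
field if `x` is not a symplectic leaf).  It does not lower `w`, by the uniqueness of the minimizer, and
induces a derivation `E_0` of `gr_w R`.

(1) If the eigenvalues `μ` of `E_0` in degree `r` satisfy `φ μ = r` for an additive map `φ`, that is, if
`ξ` lies in the Lie algebra of the torus generated by `E_0`, then `ω` degenerates to a symplectic form.
(2) This holds if `E_0` generates a maximal torus of the group of the automorphisms of `X_0` which
commute with `ξ` and with a set `L` of automorphisms of `X`.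
(3) If `E_0` has on the part of each degree `r` only the eigenvalue `c r` (`E_0` is `c ξ` plus a
nilpotent field), then `c = n / A`, and `X` is conical and isomorphic to `X_0` with its symplectic form.
(4) This holds if the group of the automorphisms of `X_0` which commute with `ξ` and with `L` has only
tori of rank one, for instance for `L = ∅`.
-/

set_option autoImplicit false

namespace Pool.Agent.Results.MP_e1889a_ag.LiouvilleTorus

open IsLocalRing Pool.Agent.Helper11.SY Pool.Agent.Helper37.LTX Pool.Agent.Helper88.LTA

theorem result (R : Type) [CommRing R] [Algebra ℂ R] [IsDomain R] [IsLocalRing R]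
    [IsNoetherianRing R] [IsAdicComplete (maximalIdeal R) R]
    (hres : ∀ f : R, ∃ c : ℂ, f - algebraMap ℂ R c ∈ maximalIdeal R)
    (n : ℕ) (hn : 1 ≤ n) (hdim : ringKrullDim R = ((2 * n : ℕ) : WithBot ℕ∞))
    (S : Symp R n) (w : CVal R) (A : ℝ) (hw : IsMinimizer S w A)
    -- the Liouville field
    (E : Derivation ℂ R R) (hEm : ∀ f ∈ maximalIdeal R, E f ∈ maximalIdeal R)
    (hL : Liouville S E) :
    -- (1) the criterion
    (∀ φ : ℂ →+ ℝ, AddEig w E φ → φ 1 = A / n ∧ OrderGe S w (A / n)) ∧
    -- (2) maximal tori
    (∀ L : Set (R ≃ₐ[ℂ] R), MaxTorus w E L → OrderGe S w (A / n)) ∧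
    -- (3) one eigenvalue in each degree
    (∀ c : ℂ, SingleEig w E c → c = n / A ∧ OrderGe S w (A / n) ∧
      ∃ G : ℝ → Submodule ℂ R, Conical S w (A / n) G) ∧
    -- (4) rank one
    (∀ L : Set (R ≃ₐ[ℂ] R), (∀ σ ∈ L, ∀ f, E (σ f) = σ (E f)) → RankOne w L →
      SingleEig w E (n / A)) :=
  Pool.Agent.Helper88.LTA.main hres hn hdim S w A hw E hEm hL

end Pool.Agent.Results.MP_e1889a_ag.LiouvilleTorus
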