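import Pool.Agent.Helper88.LW.Main

/-!
# MP_e1889a_ag: functions of low valuation on a symplectic germ

`R` is the completed local ring of a symplectic germ `x ∈ X` of dimension `2 n`, `S` the Poisson bracket
of the symplectic form `ω` with its Pfaffian, `w` the minimizer of the normalized volume and `A` its log
discrepancy.

Meaning for Q1. `ω ^ n` generates the canonical module, so `w (ω ^ n) = A`, and the degeneration of `ω` is
a symplectic form on `X_0 = Spec (gr_w R)` iff `w (ω) = A / n` iff `w {f, g} ≥ w f + w g - A / n` for all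
`f, g ∈ R` (`OrderGe`); the bracket of degree `- A / n` on `gr_w R` is then inverse to it.
-/

set_option autoImplicit false

namespace Pool.Agent.Results.MP_e1889a_ag.LowFunctions

open IsLocalRing Pool.Agent.Helper11.SY Pool.Agent.Helper88.LW

theorem result (R : Type) [CommRing R] [Algebra ℂ R] [IsDomain R] [IsLocalRing R]
    [IsNoetherianRing R] [IsAdicComplete (maximalIdeal R) R]
    (hres : ∀ f : R, ∃ c : ℂ, f - algebraMap ℂ R c ∈ maximalIdeal R)
    (n : ℕ) (hn : 1 ≤ n) (hdim : ringKrullDim R = ((2 * n : ℕ) : WithBot ℕ∞))
    (S : Symp R n) (w : CVal R) (A : ℝ) (hw : IsMin S w A) :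
    -- (1) the inequality of Q1 if one of the functions has valuation at most `A / n`
    (∀ f g : R, min (w.v f) (w.v g) ≤ ((A / n : ℝ) : WithTop ℝ) →
      w.v f + w.v g ≤ w.v (S.br f g) + ((A / n : ℝ) : WithTop ℝ)) ∧
    -- (2) `2 n - 1` functions of valuation at most `A / n` with independent initial forms
    (Pool.Agent.Helper88.LW.LowIndep S w A (A / n) → OrderGe S w (A / n)) ∧
    -- (3) `2 n - 2` functions of valuation at most `A / n` with nondegenerate brackets
    (LowNondeg S w (A / n) → OrderGe S w (A / n)) ∧
    -- (4) generation in degrees at most `A / n`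
    (LowGen w (A / n) → OrderGe S w (A / n)) ∧
    -- (5) derivations lower the minimizer by at most `A / 2 n`
    (∀ (D : Derivation ℂ R R) (f : R), w.v f ≤ w.v (D f) + ((A / (2 * n) : ℝ) : WithTop ℝ)) :=
  main R hres n hn hdim S w A hw

end Pool.Agent.Results.MP_e1889a_ag.LowFunctions
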