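import Pool.Agent.Helper37.SCX.Main

set_option autoImplicit false

/-!
MP_e1889a_ag: if the stable degeneration `X₀` of `x ∈ X` is symplectic, that is, carries one closed
nowhere degenerate 2-form `η` (or one homogeneous nowhere degenerate 2-form, closed or not), then
every symplectic form of `X` degenerates to a symplectic form of `X₀`, which is homogeneous of weight
`a / n`.

`X` has the ring `R` and the function field `K`, `v` is the minimizer of the normalized volume,
`R₀ = gr_v R` with fraction field `K₀`, Reeb field `ξ` and `v₀ = wt ξ`; `a` is the log discrepancy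
of `v` on `X` and of `v₀` on `X₀`.
-/

namespace Pool.Agent.Results.MP_e1889a_ag.SymplecticCone

open Pool.Agent.Helper37.SCX

theorem result (K : Type) [Field K] [Algebra ℂ K] (K₀ : Type) [Field K₀] [Algebra ℂ K₀]
    (n : ℕ) (R : Subalgebra ℂ K) (v : RVal K) (R₀ : Subalgebra ℂ K₀) (ξ : Derivation ℂ K₀ K₀)
    (v₀ : RVal K₀) (sym : ℝ → K → K₀)
    -- `v` is quasi-monomial and `Spec R₀` is the cone `Spec (gr_v R)`
    (hR : IsFrac R) (hgr : IsGr R v R₀ ξ sym) (hq : QuasiMonomial (2 * n) v sym)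
    (hcone : IsCone R₀ ξ) (hv₀ : IsWt R₀ ξ v₀)
    -- the cone is normal and Cohen-Macaulay
    (hnorm : Normal R₀) (hCM : CM (2 * n) R₀)
    -- a symplectic form on the cone, or a homogeneous nowhere degenerate one
    (η : Form K₀) (hη : IsNondeg R₀ η) (hsymp : Closed η ∨ ∃ ℓ : ℝ, HomForm ξ ℓ η)
    -- `v₀` is the unique minimizer, and the Futaki invariant vanishes
    (a V : ℝ) (hmin : UniqueMin n R₀ η v₀ a V) (hfut : Fut n R₀ ξ η v₀ a)
    -- a symplectic form on `X` and its degeneration
    (ω : Form K) (hω : IsNondeg R ω) (hclosed : Closed ω) (hdisc : HasLogDisc n ω v a)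
    (ω₀ : Form K₀) (k : ℝ) (hdeg : IsDegen v sym ω k ω₀) (hreg : IsReg R₀ ω₀) (hk : k ≠ 0) :
    k = a / n ∧ IsNondeg R₀ ω₀ ∧ Closed ω₀ ∧ HomForm ξ k ω₀ :=
  main hR hgr hq hcone hv₀ hnorm hCM hη hsymp hmin hfut hω hclosed hdisc hdeg hreg hk

end Pool.Agent.Results.MP_e1889a_ag.SymplecticCone
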